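import Pool.Agent.helper81.NW.Spec

/-!
# Project NW (MP_133bfc_co), row TPW (helper67)
-/

set_option autoImplicit false

namespace Pool.Agent.helper81.NW

open Pool.Agent.helper84.NR
open scoped Classical
open Finset

theorem TPW (hLIN : LIN_stmt) (hCNW : CNW_stmt) (hINT : INT_stmt) (hCCW : CCW_stmt) : TPW_stmt := by
  intro V F _ _ M x y hW
  have hNF : NF M x y := hW.toNF
  have hne := hNF.ne
  have hne' : ∀ f, ¬ (OnV M.toCyc f y ∧ OnV M.toCyc f x) := fun f h => hne f ⟨h.2, h.1⟩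
  obtain ⟨-, i2, i3⟩ := hINT V F M x y hne
  obtain ⟨-, -, j3⟩ := hINT V F M y x hne'
  have h1 : ∀ e, UU M x y e → IsE M.toCyc e := by
    rintro e (he | he)
    · exact (i3 e he).2.2.2.1
    · exact (j3 e he).2.2.2.1
  have h2 : ∃ v, VV M x y v := by
    obtain ⟨A, B, v, hA, hB, hAv, hBv⟩ := hW.me
    have hv : shv M x y v := ⟨⟨A, hA, hAv⟩, B, hB, hBv⟩
    exact ⟨v, Or.inl ((i2 v).2 hv).1⟩
  have h3 : ∀ e, UU M x y e → ∀ v ∈ e, VV M x y v := by
    rintro e (he | he) v hv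
    · exact Or.inl ((i3 e he).2.2.2.2 v hv)
    · exact Or.inr ((j3 e he).2.2.2.2 v hv)
  have e1 := hLIN V F M (UU M x y) (VV M x y) h1 h2 h3
  have e2 := hCNW V F M x y hNF
  have e3 := hCCW V F M x y hW
  linarith

end Pool.Agent.helper81.NW
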